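import Mathlib

/-!
# The path of the loop O(n) model on the hexagonal lattice (project ON): definitions and statements

Faces of the hexagonal lattice are the points of `ℤ × ℤ` (triangular lattice) with the neighbours
`f + dir k`, `k : Fin 6`, in counterclockwise order. A configuration `σ : ℤ × ℤ → Bool` gives a sign
(`true` is `+`) to every face. A state `(l, k)` is the edge between the faces `l` and `l + dir k`,
oriented such that `l` is on the left; it is valid if `l` is `+` and `l + dir k` is `-`. The face in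
front is `l + dir (k + 1)`. `step σ` is the next edge of the domain wall.
-/

set_option autoImplicit false
set_option linter.unusedVariables false

namespace Pool.Agent.N929.ON

open Finset
open scoped Classical

noncomputable section

/-- the six directions, counterclockwise -/
def dir : Fin 6 → ℤ × ℤ := ![(1, 0), (0, 1), (-1, 1), (-1, 0), (0, -1), (1, -1)]

/-- oriented edges: the face on the left and the direction of the face on the right -/
abbrev St : Type := (ℤ × ℤ) × Fin 6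

/-- the face on the right -/
def rt (s : St) : ℤ × ℤ := s.1 + dir s.2

/-- the face in front -/
def front (s : St) : ℤ × ℤ := s.1 + dir (s.2 + 1)

/-- `+` on the left and `-` on the right -/
def Val (σ : ℤ × ℤ → Bool) (s : St) : Prop := σ s.1 = true ∧ σ (rt s) = false

/-- the next edge of the wall -/
def step (σ : ℤ × ℤ → Bool) (s : St) : St :=
  if σ (front s) = true then (front s, s.2 - 1) else (s.1, s.2 + 1)

/-- the domain: a parallelogram of `W` times `L` faces -/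
def Dom (W L : ℕ) : Finset (ℤ × ℤ) := Finset.Icc (1 : ℤ) W ×ˢ Finset.Icc (1 : ℤ) L

/-- the signs outside the domain: below `+` up to the column `a`, above `+` up to the column `b`, on
the left side `+`, on the right side `-` -/
def bd (L : ℕ) (a b : ℤ) (f : ℤ × ℤ) : Bool :=
  if f.2 ≤ 0 then decide (f.1 ≤ a) else if f.2 ≤ L then decide (f.1 ≤ 0) else decide (f.1 ≤ b)

/-- the configuration with the set `S` of `+` faces in the domain -/
def cfg (W L : ℕ) (a b : ℤ) (S : Finset (ℤ × ℤ)) (f : ℤ × ℤ) : Bool :=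
  if f ∈ Dom W L then decide (f ∈ S) else bd L a b f

/-- `σ` has the boundary values -/
def Bdy (W L : ℕ) (a b : ℤ) (σ : ℤ × ℤ → Bool) : Prop := ∀ f, f ∉ Dom W L → σ f = bd L a b f

/-- admissible parameters -/
def Par (W L : ℕ) (a b : ℤ) : Prop := 1 ≤ L ∧ 0 < a ∧ a < W ∧ 0 < b ∧ b < W

/-- the edge by which the path enters -/
def start (a : ℤ) : St := ((a, 0), 0)

/-- the edge by which the path leaves -/
def goal (L : ℕ) (b : ℤ) : St := ((b, (L : ℤ) + 1), 0)

/-- the path after `i` steps -/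
def pt (σ : ℤ × ℤ → Bool) (a : ℤ) (i : ℕ) : St := (step σ)^[i] (start a)

/-- the number of edges of the path in the domain -/
def len (L : ℕ) (a b : ℤ) (σ : ℤ × ℤ → Bool) : ℕ := sInf {i | pt σ a (i + 1) = goal L b}

/-- the number of all edges of the domain walls in the domain -/
def edg (W L : ℕ) (σ : ℤ × ℤ → Bool) : ℕ :=
  Set.ncard {s : St | Val σ s ∧ (s.1 ∈ Dom W L ∨ rt s ∈ Dom W L)}

/-- the closed loops, as sets of oriented edges -/
def loops (σ : ℤ × ℤ → Bool) : Set (Set St) :=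
  {O | ∃ s, Val σ s ∧ (∃ i, 1 ≤ i ∧ (step σ)^[i] s = s) ∧ O = {t | ∃ i, (step σ)^[i] s = t}}

/-- the weight `x^(number of edges) n^(number of loops)` -/
def wt (W L : ℕ) (n x : ℝ) (σ : ℤ × ℤ → Bool) : ℝ := x ^ edg W L σ * n ^ (loops σ).ncard

/-- change the sign of the face `f` -/
def flip (f : ℤ × ℤ) (σ : ℤ × ℤ → Bool) : ℤ × ℤ → Bool := Function.update σ f (!σ f)

/-- the path is at the edge between the columns `x` and `x + 1` of the row `y` after `i` steps, and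
did not see the rows above `y` before -/
def Hit (σ : ℤ × ℤ → Bool) (a y : ℤ) (i : ℕ) (x : ℤ) : Prop :=
  pt σ a i = ((x, y), 0) ∧ ∀ i' < i, (front (pt σ a i')).2 ≤ y

/-- the good pattern above the edge between the columns `x` and `x + 1` of the row `y` -/
def Good (W : ℕ) (σ : ℤ × ℤ → Bool) (x y : ℤ) : Prop :=
  if x < W then σ (x, y + 1) = true ∧ σ (x, y + 2) = true ∧ σ (x, y + 3) = true ∧
    σ (x + 1, y + 1) = false ∧ σ (x + 2, y + 1) = false ∧ σ (x + 2, y + 2) = false ∧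
    σ (x + 1, y + 3) = false
  else σ (x, y + 1) = true ∧ σ (x - 1, y + 2) = true ∧ σ (x - 1, y + 3) = true ∧
    σ (x, y + 3) = true ∧ σ (x + 1, y + 1) = false ∧ σ (x + 1, y + 2) = false ∧
    σ (x + 1, y + 3) = false

/-- the face in the middle of the pattern -/
def tf (W : ℕ) (x y : ℤ) : ℤ × ℤ := if x < W then (x + 1, y + 2) else (x, y + 2)

/-- the path makes the detour around the face in the middle -/
def Lng (W : ℕ) (σ : ℤ × ℤ → Bool) (x y : ℤ) : Prop :=
  if x < W then σ (tf W x y) = true else σ (tf W x y) = false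

/-- the state `s` touches the face `f` -/
def Tch (f : ℤ × ℤ) (s : St) : Prop := s.1 = f ∨ rt s = f ∨ front s = f

/-! ### statements -/

/-- INJ: steps keep validity, and are injective on valid states -/
def S_INJ : Prop := ∀ σ : ℤ × ℤ → Bool,
  (∀ s, Val σ s → Val σ (step σ s)) ∧
  ∀ s t, Val σ s → Val σ t → step σ s = step σ t → s = t

/-- EXIT: the path leaves the domain at the right place and never returns to its start -/
def S_EXIT : Prop := ∀ (W L : ℕ) (a b : ℤ) (σ : ℤ × ℤ → Bool), Par W L a b → Bdy W L a b σ →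
  Val σ (start a) ∧ (∃ N : ℕ, 1 ≤ N ∧ pt σ a N = goal L b) ∧ ∀ i, 1 ≤ i → pt σ a i ≠ start a

/-- HIT: every row is reached, and this does not depend on the faces above the row -/
def S_HIT : Prop :=
  (∀ (W L : ℕ) (a b : ℤ) (σ : ℤ × ℤ → Bool), Par W L a b → Bdy W L a b σ →
    ∀ y : ℤ, 0 ≤ y → y ≤ L → ∃ i x, 0 ≤ x ∧ x ≤ W ∧ Hit σ a y i x) ∧
  (∀ (σ σ' : ℤ × ℤ → Bool) (a y : ℤ) (i : ℕ) (x : ℤ), 0 ≤ y → Hit σ a y i x →
    (∀ f : ℤ × ℤ, f.2 ≤ y → σ' f = σ f) → Hit σ' a y i x ∧ ∀ i' ≤ i, pt σ' a i' = pt σ a i') ∧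
  ∀ (σ : ℤ × ℤ → Bool) (a y : ℤ) (i i' : ℕ) (x x' : ℤ), Hit σ a y i x → Hit σ a y i' x' →
    i = i' ∧ x = x'

/-- PASS: the path in a good pattern -/
def S_PASS : Prop := ∀ (W : ℕ) (σ : ℤ × ℤ → Bool) (x y : ℤ), Good W σ x y →
  ∀ p : ℕ, p = (if Lng W σ x y then 8 else 6) →
    (step σ)^[p] ((x, y), 0) = ((x, y + 3), 0) ∧
    (∀ i < p, (front ((step σ)^[i] ((x, y), 0))).2 ≤ y + 3) ∧
    ∀ s, Val σ s → Tch (tf W x y) s → ∃ i < p, (step σ)^[i] ((x, y), 0) = s

/-- SURG: changing one face which is touched by the path only between two given states -/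
def S_SURG : Prop := ∀ (σ σ' : ℤ × ℤ → Bool) (f : ℤ × ℤ), (∀ g, g ≠ f → σ' g = σ g) →
  ∀ (s₀ u v : St) (m p q : ℕ), Val σ s₀ → Val σ' s₀ →
    (∀ i, 1 ≤ i → (step σ)^[i] s₀ ≠ s₀) → (∀ i, 1 ≤ i → (step σ')^[i] s₀ ≠ s₀) →
    (step σ)^[m] s₀ = u → (step σ')^[m] s₀ = u → (step σ)^[p] u = v → (step σ')^[q] u = v →
    (∀ s, Val σ s → Tch f s → ∃ i < p, (step σ)^[i] u = s) →
    (∀ s, Val σ' s → Tch f s → ∃ i < q, (step σ')^[i] u = s) →
    (∀ i, (step σ')^[m + q + i] s₀ = (step σ)^[m + p + i] s₀) ∧ loops σ' = loops σ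

/-- EDG: in a good pattern the detour has two more edges -/
def S_EDG : Prop := ∀ (W L : ℕ) (σ : ℤ × ℤ → Bool) (x y : ℤ), 0 ≤ x → x ≤ W → 0 ≤ y → y + 3 ≤ L →
  1 ≤ W → Good W σ x y → ¬ Lng W σ x y →
  edg W L (flip (tf W x y) σ) = edg W L σ + 2

/-- TOG: changing the face in the middle of a good pattern on the path -/
def S_TOG : Prop := ∀ (W L : ℕ) (a b : ℤ) (σ : ℤ × ℤ → Bool), Par W L a b → Bdy W L a b σ →
  ∀ (j : ℕ) (i : ℕ) (x : ℤ), 3 * j + 3 ≤ L → Hit σ a (3 * j : ℕ) i x →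
    Good W σ x (3 * j : ℕ) → ∀ σ', σ' = flip (tf W x (3 * j : ℕ)) σ →
    tf W x (3 * j : ℕ) ∈ Dom W L ∧ Bdy W L a b σ' ∧
    Hit σ' a (3 * j : ℕ) i x ∧ Good W σ' x (3 * j : ℕ) ∧
    (Lng W σ' x (3 * j : ℕ) ↔ ¬ Lng W σ x (3 * j : ℕ)) ∧
    (¬ Lng W σ x (3 * j : ℕ) → len L a b σ' = len L a b σ + 2 ∧ edg W L σ' = edg W L σ + 2) ∧
    loops σ' = loops σ ∧
    ∀ j' : ℕ, j' ≠ j → 3 * j' + 3 ≤ L → ∀ x' : ℤ,
      ((∃ i', Hit σ' a (3 * j' : ℕ) i' x') ↔ ∃ i', Hit σ a (3 * j' : ℕ) i' x') ∧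
      (Good W σ' x' (3 * j' : ℕ) ↔ Good W σ x' (3 * j' : ℕ)) ∧
      (Lng W σ' x' (3 * j' : ℕ) ↔ Lng W σ x' (3 * j' : ℕ))

/-- FE: finite energy -/
def S_FE : Prop := ∀ n x : ℝ, 0 < n → 0 < x → ∃ κ : ℝ, 0 < κ ∧
  ∀ (W L : ℕ) (a b : ℤ), Par W L a b → ∀ σ : ℤ × ℤ → Bool, Bdy W L a b σ →
    (loops σ).Finite ∧ 0 < wt W L n x σ ∧
    ∀ f ∈ Dom W L, κ * wt W L n x σ ≤ wt W L n x (flip f σ)

/-- the numbers `j` of the rows `3 j` above which the path finds a good pattern -/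
def JJ (W L : ℕ) (a b : ℤ) (S : Finset (ℤ × ℤ)) : Finset ℕ :=
  (range (L / 3)).filter (fun j => ∃ i x, Hit (cfg W L a b S) a (3 * j : ℕ) i x ∧
    Good W (cfg W L a b S) x (3 * j : ℕ))

/-- MANY: good patterns are frequent on the path -/
def S_MANY : Prop := ∀ n x : ℝ, 0 < n → 0 < x → ∃ C : ℝ, 1 ≤ C ∧
  ∀ (W L : ℕ) (a b : ℤ), Par W L a b →
    ∑ S ∈ (Dom W L).powerset.filter (fun S => C * ((JJ W L a b S).card : ℝ) < L),
      wt W L n x (cfg W L a b S) ≤
      C * Real.exp (-((L : ℝ) / C)) * ∑ S ∈ (Dom W L).powerset, wt W L n x (cfg W L a b S)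

end

end Pool.Agent.N929.ON
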