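import Pool.Agent.N929.ON.Stm
import Pool.Agent.N929.EG.GC
import Pool.Agent.N929.EG.Main

/-!
# The path of the loop O(n) model: the system of local moves
-/

set_option autoImplicit false
set_option linter.unusedVariables false

namespace Pool.Agent.N929.ON

open Finset
open scoped Classical

noncomputable section

variable {W L : ℕ} {a b : ℤ}

theorem bdy_cfg (W L : ℕ) (a b : ℤ) (S : Finset (ℤ × ℤ)) : Bdy W L a b (cfg W L a b S) := by
  intro f hf
  unfold cfg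
  rw [if_neg hf]

/-- the set with the sign of one face changed -/
def tg (f : ℤ × ℤ) (S : Finset (ℤ × ℤ)) : Finset (ℤ × ℤ) := symmDiff S {f}

theorem tg_tg (f : ℤ × ℤ) (S : Finset (ℤ × ℤ)) : tg f (tg f S) = S := by
  unfold tg
  rw [symmDiff_assoc, symmDiff_self]
  simp

theorem tg_comm (f g : ℤ × ℤ) (S : Finset (ℤ × ℤ)) : tg f (tg g S) = tg g (tg f S) := by
  unfold tg
  exact symmDiff_right_comm S {g} {f}

theorem mem_tg (f g : ℤ × ℤ) (S : Finset (ℤ × ℤ)) : g ∈ tg f S ↔ (g ∈ S ↔ g ≠ f) := by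
  unfold tg
  rw [Finset.mem_symmDiff, Finset.mem_singleton]
  tauto

theorem tg_sub {f : ℤ × ℤ} {S D : Finset (ℤ × ℤ)} (hf : f ∈ D) (hS : S ⊆ D) : tg f S ⊆ D := by
  intro g hg
  by_cases h : g = f
  · rw [h]
    exact hf
  · exact hS (((mem_tg f g S).1 hg).2 h)

theorem cfg_tg {f : ℤ × ℤ} (hf : f ∈ Dom W L) (S : Finset (ℤ × ℤ)) :
    cfg W L a b (tg f S) = flip f (cfg W L a b S) := by
  funext g
  unfold flip
  by_cases h : g = f
  · subst h
    rw [Function.update_self]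
    unfold cfg
    rw [if_pos hf, if_pos hf, ← decide_not]
    congr 1
    rw [eq_iff_iff, mem_tg]
    simp
  · rw [Function.update_of_ne h]
    unfold cfg
    by_cases hg : g ∈ Dom W L
    · rw [if_pos hg, if_pos hg]
      congr 1
      rw [eq_iff_iff, mem_tg]
      simp [h]
    · rw [if_neg hg, if_neg hg]

/-- the column where the path reaches the row `3 j` -/
def col (W L : ℕ) (a b : ℤ) (S : Finset (ℤ × ℤ)) (j : ℕ) : ℤ :=
  if h : ∃ x i, Hit (cfg W L a b S) a (3 * j : ℕ) i x then h.choose else 0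

theorem col_eq (hhit : S_HIT) {S : Finset (ℤ × ℤ)} {j : ℕ} {i : ℕ} {x : ℤ}
    (h : Hit (cfg W L a b S) a (3 * j : ℕ) i x) : col W L a b S j = x := by
  have h1 : ∃ x i, Hit (cfg W L a b S) a (3 * j : ℕ) i x := ⟨x, i, h⟩
  unfold col
  rw [dif_pos h1]
  obtain ⟨i', h2⟩ := h1.choose_spec
  exact (hhit.2.2 _ _ _ _ _ _ _ h2 h).2

/-- the face which is changed -/
def fc (W L : ℕ) (a b : ℤ) (S : Finset (ℤ × ℤ)) (j : ℕ) : ℤ × ℤ :=
  tf W (col W L a b S j) (3 * j : ℕ)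

/-- long -/
def Lg (W L : ℕ) (a b : ℤ) (S : Finset (ℤ × ℤ)) (j : ℕ) : Prop :=
  Lng W (cfg W L a b S) (col W L a b S j) (3 * j : ℕ)

theorem mem_JJ (hhit : S_HIT) {S : Finset (ℤ × ℤ)} {j : ℕ} : j ∈ JJ W L a b S ↔
    j < L / 3 ∧ (∃ i, Hit (cfg W L a b S) a (3 * j : ℕ) i (col W L a b S j)) ∧
      Good W (cfg W L a b S) (col W L a b S j) (3 * j : ℕ) := by
  unfold JJ
  rw [mem_filter, mem_range]
  constructor
  · rintro ⟨h1, i, x, h2, h3⟩
    have h4 := col_eq hhit h2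
    rw [h4]
    exact ⟨h1, ⟨i, h2⟩, h3⟩
  · rintro ⟨h1, ⟨i, h2⟩, h3⟩
    exact ⟨h1, i, _, h2, h3⟩

/-- one move -/
theorem move (hhit : S_HIT) (htog : S_TOG) (hp : Par W L a b) {S : Finset (ℤ × ℤ)}
    (hS : S ⊆ Dom W L) {j : ℕ} (hj : j ∈ JJ W L a b S) {S' : Finset (ℤ × ℤ)}
    (hS' : S' = tg (fc W L a b S j) S) :
    S' ⊆ Dom W L ∧ JJ W L a b S' = JJ W L a b S ∧
      (∀ j', j' < L / 3 → col W L a b S' j' = col W L a b S j') ∧
      (Lg W L a b S' j ↔ ¬ Lg W L a b S j) ∧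
      (∀ j', j' ≠ j → j' < L / 3 → (Lg W L a b S' j' ↔ Lg W L a b S j')) ∧
      (¬ Lg W L a b S j → len L a b (cfg W L a b S') = len L a b (cfg W L a b S) + 2 ∧
        edg W L (cfg W L a b S') = edg W L (cfg W L a b S) + 2) ∧
      loops (cfg W L a b S') = loops (cfg W L a b S) := by
  obtain ⟨hj1, ⟨i, h2⟩, h3⟩ := (mem_JJ hhit).1 hj
  have hj3 : 3 * j + 3 ≤ L := by omega
  obtain ⟨t1, t2, t3, t4, t5, t6, t7, t8⟩ := htog W L a b (cfg W L a b S) hp (bdy_cfg _ _ _ _ _) j i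
    (col W L a b S j) hj3 h2 h3 (cfg W L a b S') (by
      rw [hS']
      refine cfg_tg ?_ S
      exact (htog W L a b (cfg W L a b S) hp (bdy_cfg _ _ _ _ _) j i _ hj3 h2 h3 _ rfl).1)
  have hcol : ∀ j', j' < L / 3 → col W L a b S' j' = col W L a b S j' := by
    intro j' hj'
    by_cases h : j' = j
    · subst h
      exact col_eq hhit t3
    · obtain ⟨i', x', -, -, h4⟩ := hhit.1 W L a b (cfg W L a b S') hp (bdy_cfg _ _ _ _ _)
        ((3 * j' : ℕ) : ℤ) (by positivity) (by exact_mod_cast (by omega : 3 * j' ≤ L))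
      obtain ⟨i'', h5⟩ := (t8 j' h (by omega) x').1.1 ⟨i', h4⟩
      rw [col_eq hhit h4, col_eq hhit h5]
  refine ⟨?_, ?_, hcol, ?_, ?_, t6, t7⟩
  · rw [hS']
    exact tg_sub t1 hS
  · ext j'
    rw [mem_JJ hhit, mem_JJ hhit]
    refine and_congr_right fun hj' => ?_
    rw [hcol j' hj']
    by_cases h : j' = j
    · subst h
      exact ⟨fun _ => ⟨⟨i, h2⟩, h3⟩, fun _ => ⟨⟨i, t3⟩, t4⟩⟩
    · obtain ⟨a1, a2, a3⟩ := t8 j' h (by omega) (col W L a b S j')
      rw [a1, a2]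
  · unfold Lg
    rw [hcol j hj1]
    exact t5
  · intro j' h hj'
    unfold Lg
    rw [hcol j' hj']
    exact (t8 j' h (by omega) _).2.2

/-- the long case -/
theorem move' (hhit : S_HIT) (htog : S_TOG) (hp : Par W L a b) {S : Finset (ℤ × ℤ)}
    (hS : S ⊆ Dom W L) {j : ℕ} (hj : j ∈ JJ W L a b S) {S' : Finset (ℤ × ℤ)}
    (hS' : S' = tg (fc W L a b S j) S) (hl : Lg W L a b S j) :
    len L a b (cfg W L a b S) = len L a b (cfg W L a b S') + 2 ∧
      edg W L (cfg W L a b S) = edg W L (cfg W L a b S') + 2 := by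
  obtain ⟨m1, m2, m3, m4, m5, m6, m7⟩ := move hhit htog hp hS hj hS'
  have hj1 := ((mem_JJ hhit).1 hj).1
  have h1 : S = tg (fc W L a b S' j) S' := by
    have : fc W L a b S' j = fc W L a b S j := by
      unfold fc
      rw [m3 j hj1]
    rw [this, hS', tg_tg]
  obtain ⟨-, -, -, -, -, k6, -⟩ := move hhit htog hp m1 (by rw [m2]; exact hj) h1
  exact k6 (fun h => (m4.1 h) hl)

open Pool.Agent.N929.EG in
/-- the system of local moves -/
def sysN (hhit : S_HIT) (htog : S_TOG) (hp : Par W L a b) : TS (Finset (ℤ × ℤ)) ℕ where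
  K N := (Dom W L).powerset.filter (fun S => len L a b (cfg W L a b S) = N)
  len S := len L a b (cfg W L a b S)
  S S := (JJ W L a b S).filter (fun j => ¬ Lg W L a b S j)
  B S := (JJ W L a b S).filter (fun j => Lg W L a b S j)
  ins S j := tg (fc W L a b S j) S
  rem S j := tg (fc W L a b S j) S
  s := 2
  cf q q' := q = q'
  d := 1
  U N := range (L / 3)
  hs := by norm_num
  len_K n w hw := (mem_filter.1 hw).2
  ins_K n w q hw hq := by
    obtain ⟨h1, h2⟩ := mem_filter.1 hw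
    obtain ⟨h3, h4⟩ := mem_filter.1 hq
    obtain ⟨m1, m2, m3, m4, m5, m6, m7⟩ := move hhit htog hp (mem_powerset.1 h1) h3 rfl
    refine mem_filter.2 ⟨mem_powerset.2 m1, ?_⟩
    rw [(m6 h4).1, h2]
  ins_B n w q hw hq := by
    obtain ⟨h1, h2⟩ := mem_filter.1 hw
    obtain ⟨h3, h4⟩ := mem_filter.1 hq
    obtain ⟨m1, m2, m3, m4, m5, m6, m7⟩ := move hhit htog hp (mem_powerset.1 h1) h3 rfl
    exact mem_filter.2 ⟨by rw [m2]; exact h3, m4.2 h4⟩
  rem_ins n w q hw hq := by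
    obtain ⟨h1, h2⟩ := mem_filter.1 hw
    obtain ⟨h3, h4⟩ := mem_filter.1 hq
    obtain ⟨m1, m2, m3, m4, m5, m6, m7⟩ := move hhit htog hp (mem_powerset.1 h1) h3 rfl
    have : fc W L a b (tg (fc W L a b w q) w) q = fc W L a b w q := by
      rw [fc, m3 q ((mem_JJ hhit).1 h3).1, fc]
    rw [this, tg_tg]
  rem_le n w q hw hq := by
    obtain ⟨h1, h2⟩ := mem_filter.1 hw
    obtain ⟨h3, h4⟩ := mem_filter.1 hq
    have := (move' hhit htog hp (mem_powerset.1 h1) h3 rfl h4).1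
    omega
  rem_K n w q hw hq := by
    obtain ⟨h1, h2⟩ := mem_filter.1 hw
    obtain ⟨h3, h4⟩ := mem_filter.1 hq
    obtain ⟨m1, m2, m3, m4, m5, m6, m7⟩ := move hhit htog hp (mem_powerset.1 h1) h3 rfl
    refine mem_filter.2 ⟨mem_powerset.2 m1, ?_⟩
    have := (move' hhit htog hp (mem_powerset.1 h1) h3 rfl h4).1
    omega
  rem_S n w q hw hq := by
    obtain ⟨h1, h2⟩ := mem_filter.1 hw
    obtain ⟨h3, h4⟩ := mem_filter.1 hq
    obtain ⟨m1, m2, m3, m4, m5, m6, m7⟩ := move hhit htog hp (mem_powerset.1 h1) h3 rfl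
    exact mem_filter.2 ⟨by rw [m2]; exact h3, fun h => (m4.1 h) h4⟩
  ins_rem n w q hw hq := by
    obtain ⟨h1, h2⟩ := mem_filter.1 hw
    obtain ⟨h3, h4⟩ := mem_filter.1 hq
    obtain ⟨m1, m2, m3, m4, m5, m6, m7⟩ := move hhit htog hp (mem_powerset.1 h1) h3 rfl
    have : fc W L a b (tg (fc W L a b w q) w) q = fc W L a b w q := by
      rw [fc, m3 q ((mem_JJ hhit).1 h3).1, fc]
    rw [this, tg_tg]
  disj n w q hw hq hq' := (mem_filter.1 hq).2 (mem_filter.1 hq').2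
  cf_symm q q' h := h.symm
  ins_S n w q q' hw hq hc := by
    obtain ⟨h1, h2⟩ := mem_filter.1 hw
    obtain ⟨h3, h4⟩ := mem_filter.1 hq
    obtain ⟨m1, m2, m3, m4, m5, m6, m7⟩ := move hhit htog hp (mem_powerset.1 h1) h3 rfl
    rw [mem_filter, mem_filter, m2]
    refine and_congr_right fun h => ?_
    rw [m5 q' (fun e => hc e.symm) ((mem_JJ hhit).1 h).1]
  ins_BB n w q q' hw hq hc := by
    obtain ⟨h1, h2⟩ := mem_filter.1 hw
    obtain ⟨h3, h4⟩ := mem_filter.1 hq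
    obtain ⟨m1, m2, m3, m4, m5, m6, m7⟩ := move hhit htog hp (mem_powerset.1 h1) h3 rfl
    rw [mem_filter, mem_filter, m2]
    refine and_congr_right fun h => ?_
    rw [m5 q' (fun e => hc e.symm) ((mem_JJ hhit).1 h).1]
  ins_comm n w q q' hw hq hq' hc := by
    obtain ⟨h1, h2⟩ := mem_filter.1 hw
    obtain ⟨h3, h4⟩ := mem_filter.1 hq
    obtain ⟨h3', h4'⟩ := mem_filter.1 hq'
    obtain ⟨m1, m2, m3, m4, m5, m6, m7⟩ := move hhit htog hp (mem_powerset.1 h1) h3 rfl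
    obtain ⟨k1, k2, k3, k4, k5, k6, k7⟩ := move hhit htog hp (mem_powerset.1 h1) h3' rfl
    have e1 : fc W L a b (tg (fc W L a b w q) w) q' = fc W L a b w q' := by
      rw [fc, m3 q' ((mem_JJ hhit).1 h3').1, fc]
    have e2 : fc W L a b (tg (fc W L a b w q') w) q = fc W L a b w q := by
      rw [fc, k3 q ((mem_JJ hhit).1 h3).1, fc]
    rw [e1, e2, tg_comm]
  S_U n N w hw hn := by
    have h : JJ W L a b w ⊆ range (L / 3) := filter_subset _ _
    exact ⟨(filter_subset _ _).trans h, (filter_subset _ _).trans h⟩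
  deg N q hq := by
    refine le_trans (card_le_card (t := {q}) ?_) (card_singleton q).le
    intro q' hq'
    simp only [mem_filter] at hq'
    rw [mem_singleton]
    exact hq'.2.symm

end

end Pool.Agent.N929.ON
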