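import Pool.Agent.N929.ON.Asm

/-!
# The path of the loop O(n) model: the law of the number of steps
-/

set_option autoImplicit false
set_option linter.unusedVariables false

namespace Pool.Agent.N929.ON

open Finset
open scoped Classical
open Pool.Agent.N929.EG Pool.Agent.N929.EG.Seq

noncomputable section

theorem fin_aux {C C' L : ℝ} (hC : 0 < C) (hC' : 1 ≤ C') (hL0 : 0 < L) (r : ℕ) {Z H X E : ℝ}
    (hZ0 : 0 ≤ Z) (hH0 : 0 ≤ H) (hm' : E ≤ C' * Real.exp (-(L / C')) * Z)
    (e2 : X ≤ Real.sqrt C' ^ r * H + E) :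
    C * X ≤ (C * Real.sqrt C' ^ r + C * C' + C') *
      (H + Real.exp (-(L / (C * Real.sqrt C' ^ r + C * C' + C'))) * Z) := by
  have hC'0 : 0 < C' := by linarith
  have hsC : 0 < Real.sqrt C' := Real.sqrt_pos.2 hC'0
  obtain ⟨B, hB⟩ : ∃ B, B = C * Real.sqrt C' ^ r + C * C' + C' := ⟨_, rfl⟩
  have hCC : 0 < C * Real.sqrt C' ^ r := by positivity
  have hCC' : 0 < C * C' := by positivity
  have hB1 : C' ≤ B := by rw [hB]; linarith
  have hB2 : C * C' ≤ B := by rw [hB]; linarith
  have hB3 : C * Real.sqrt C' ^ r ≤ B := by rw [hB]; linarith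
  have hB0 : 0 < B := by linarith
  rw [← hB]
  have he : Real.exp (-(L / C')) ≤ Real.exp (-(L / B)) := by
    apply Real.exp_le_exp.mpr
    have := div_le_div_of_nonneg_left hL0.le hC'0 hB1
    linarith
  calc C * X ≤ C * (Real.sqrt C' ^ r * H + C' * Real.exp (-(L / C')) * Z) := by
        refine mul_le_mul_of_nonneg_left (e2.trans ?_) hC.le
        linarith
    _ = C * Real.sqrt C' ^ r * H + C * C' * (Real.exp (-(L / C')) * Z) := by ring
    _ ≤ B * H + B * (Real.exp (-(L / B)) * Z) := by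
        refine add_le_add (mul_le_mul_of_nonneg_right hB3 hH0) ?_
        have h1 : Real.exp (-(L / C')) * Z ≤ Real.exp (-(L / B)) * Z :=
          mul_le_mul_of_nonneg_right he hZ0
        have h2 : 0 ≤ Real.exp (-(L / C')) * Z := mul_nonneg (Real.exp_pos _).le hZ0
        exact mul_le_mul hB2 h1 h2 hB0.le
    _ = _ := by ring

theorem sl_card {α σ : Type} (Y : TS α σ) (L J : Finset σ) (w : α)
    (h : ∀ q, q ∈ J ↔ q ∈ L ∧ (q ∈ Y.S w ∨ q ∈ Y.B w)) : (Sl Y L w).card = J.card := by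
  congr 1
  ext q
  rw [h]
  unfold Sl
  rw [mem_filter]

/-- **The law of the number of steps, all orders, given the loops** -/
theorem finN (hhit : S_HIT) (htog : S_TOG) (hmany : S_MANY) : ∀ n x : ℝ, 0 < n → 0 < x →
    ∀ r : ℕ, ∃ B : ℝ, 0 < B ∧ ∀ (W L : ℕ) (a b : ℤ), Par W L a b →
      ∀ G : Set (Set St) → ℝ, (∀ O, 0 ≤ G O ∧ G O ≤ 1) → ∀ g : ℕ → ℝ, (∀ m, |g m| ≤ 1) →
      |∑ S ∈ (Dom W L).powerset, wt W L n x (cfg W L a b S) *
        (G (loops (cfg W L a b S)) * D 2 r g (len L a b (cfg W L a b S)))| ≤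
      B * ((∑ S ∈ (Dom W L).powerset, wt W L n x (cfg W L a b S) *
        G (loops (cfg W L a b S))) / Real.sqrt L ^ r +
        Real.exp (-((L : ℝ) / B)) * ∑ S ∈ (Dom W L).powerset, wt W L n x (cfg W L a b S)) := by
  intro n x hn hx r
  have hc : 0 < (1 + x ^ 2) / Real.sqrt (x ^ 2) := by
    have : 0 < Real.sqrt (x ^ 2) := Real.sqrt_pos.2 (by positivity)
    positivity
  obtain ⟨C, hC, h⟩ := gc1 hc 2 r
  obtain ⟨C', hC', hm⟩ := hmany n x hn hx
  have hC'0 : 0 < C' := by linarith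
  refine ⟨C * Real.sqrt C' ^ r + C * C' + C', by positivity, ?_⟩
  intro W L a b hp G hG g hg
  obtain ⟨hL, -, -, -, -⟩ := id hp
  have hL0 : (0 : ℝ) < L := by exact_mod_cast hL
  obtain ⟨Y, hY⟩ : ∃ Y, Y = sysN hhit htog hp := ⟨_, rfl⟩
  have yK : ∀ N, Y.K N = (Dom W L).powerset.filter (fun S => len L a b (cfg W L a b S) = N) := by
    intro N
    rw [hY]
    rfl
  have yl : ∀ S, Y.len S = len L a b (cfg W L a b S) := by
    intro S
    rw [hY]
    rfl
  have yS : ∀ S, Y.S S = (JJ W L a b S).filter (fun j => ¬ Lg W L a b S j) := by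
    intro S
    rw [hY]
    rfl
  have yB : ∀ S, Y.B S = (JJ W L a b S).filter (fun j => Lg W L a b S j) := by
    intro S
    rw [hY]
    rfl
  have yi : ∀ S j, Y.ins S j = tg (fc W L a b S j) S := by
    intro S j
    rw [hY]
    rfl
  have yc : ∀ q q', Y.cf q q' ↔ q = q' := by
    intro q q'
    rw [hY]
    rfl
  have hfam : Fam Y (range (L / 3)) := by
    intro q _ q' _ hne hcf
    exact hne ((yc q q').1 hcf)
  obtain ⟨st, fl, hfl⟩ := s_bij _ _ Y (range (L / 3)) hfam
  obtain ⟨N, hN⟩ : ∃ N : ℕ, N = (Dom W L).powerset.sup (fun S => len L a b (cfg W L a b S)) :=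
    ⟨_, rfl⟩
  have hNK : ∀ m, N < m → Y.K m = ∅ := by
    intro m hm
    rw [yK, filter_eq_empty_iff]
    intro S hS he
    have h1 : len L a b (cfg W L a b S) ≤ N := by
      rw [hN]
      exact le_sup (f := fun S => len L a b (cfg W L a b S)) hS
    omega
  have hAll : All Y N = (Dom W L).powerset := by
    ext S
    rw [mem_All, yK, yl, mem_filter]
    constructor
    · rintro ⟨⟨h1, -⟩, -⟩
      exact h1
    · intro h1
      refine ⟨⟨h1, rfl⟩, ?_⟩
      rw [hN]
      exact le_sup (f := fun S => len L a b (cfg W L a b S)) h1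
  have hSl : ∀ S, (Sl Y (range (L / 3)) S).card = (JJ W L a b S).card := by
    intro S
    refine sl_card Y _ _ S fun j => ?_
    rw [yS, yB, mem_filter, mem_filter]
    constructor
    · intro h1
      refine ⟨(filter_subset _ _ : JJ W L a b S ⊆ range (L / 3)) h1, ?_⟩
      by_cases hl : Lg W L a b S j
      · exact Or.inr ⟨h1, hl⟩
      · exact Or.inl ⟨h1, hl⟩
    · rintro ⟨-, h1 | h1⟩
      · exact h1.1
      · exact h1.1
  -- the weight
  obtain ⟨F, hF⟩ : ∃ F : Finset (ℤ × ℤ) → ℝ, F = fun S => wt W L n x (cfg W L a b S) /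
    x ^ len L a b (cfg W L a b S) * G (loops (cfg W L a b S)) := ⟨_, rfl⟩
  have hw0 : ∀ S, 0 < wt W L n x (cfg W L a b S) := by
    intro S
    unfold wt
    positivity
  have hF0 : ∀ S, 0 ≤ F S := by
    intro S
    rw [hF]
    have := (hG (loops (cfg W L a b S))).1
    have := hw0 S
    positivity
  have hFx : ∀ S, x ^ Y.len S * F S = wt W L n x (cfg W L a b S) * G (loops (cfg W L a b S)) := by
    intro S
    rw [hF, yl]
    have : x ^ len L a b (cfg W L a b S) ≠ 0 := by positivity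
    simp only
    field_simp
  have hinv : InvOff Y ∅ F := by
    intro m S hS q hq _
    rw [yK, mem_filter, mem_powerset] at hS
    rw [yS, mem_filter] at hq
    rw [yi]
    obtain ⟨-, -, -, -, -, m6, m7⟩ := move hhit htog hp hS.1 hq.1 rfl
    obtain ⟨m8, m9⟩ := m6 hq.2
    rw [hF]
    simp only
    rw [m7, m8]
    unfold wt
    rw [m9, m7, pow_add, pow_add]
    have : x ^ len L a b (cfg W L a b S) ≠ 0 := by positivity
    have hx2 : x ^ 2 ≠ 0 := by positivity
    field_simp
  have key := h x hx le_rfl _ _ Y (by rw [hY]; rfl) N hNK (range (L / 3)) ∅ st fl hfl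
    (fun q _ => by simp) F g hF0 hinv hg
  rw [hAll] at key
  have e1 : ∑ S ∈ (Dom W L).powerset, x ^ Y.len S * (F S * D 2 r g (Y.len S)) =
      ∑ S ∈ (Dom W L).powerset, wt W L n x (cfg W L a b S) *
        (G (loops (cfg W L a b S)) * D 2 r g (len L a b (cfg W L a b S))) := by
    refine sum_congr rfl fun S _ => ?_
    rw [← mul_assoc, hFx, yl, mul_assoc]
  rw [e1] at key
  refine key.trans ?_
  -- the error term
  have hZ0 : 0 ≤ ∑ S ∈ (Dom W L).powerset, wt W L n x (cfg W L a b S) :=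
    sum_nonneg fun S _ => (hw0 S).le
  have hG0 : 0 ≤ ∑ S ∈ (Dom W L).powerset, wt W L n x (cfg W L a b S) *
      G (loops (cfg W L a b S)) :=
    sum_nonneg fun S _ => mul_nonneg (hw0 S).le (hG _).1
  have hsL : 0 < Real.sqrt L := Real.sqrt_pos.2 hL0
  have hsC : 0 < Real.sqrt C' := Real.sqrt_pos.2 hC'0
  have e2 : ∑ S ∈ (Dom W L).powerset, x ^ Y.len S * (F S /
      Real.sqrt ((Sl Y (range (L / 3)) S).card + 1) ^ r) ≤
      Real.sqrt C' ^ r * ((∑ S ∈ (Dom W L).powerset, wt W L n x (cfg W L a b S) *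
        G (loops (cfg W L a b S))) / Real.sqrt L ^ r) +
      ∑ S ∈ (Dom W L).powerset.filter (fun S => C' * ((JJ W L a b S).card : ℝ) < L),
        wt W L n x (cfg W L a b S) := by
    rw [sum_filter, sum_div, mul_sum, ← sum_add_distrib]
    refine sum_le_sum fun S _ => ?_
    rw [hSl, ← mul_div_assoc, hFx]
    have g0 := (hG (loops (cfg W L a b S))).1
    have g1 := (hG (loops (cfg W L a b S))).2
    have w0 := hw0 S
    have hj0 : (0 : ℝ) ≤ ((JJ W L a b S).card : ℝ) := Nat.cast_nonneg _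
    have hsj : 1 ≤ Real.sqrt (((JJ W L a b S).card : ℝ) + 1) := by
      rw [Real.one_le_sqrt]
      linarith
    have hwg : 0 ≤ wt W L n x (cfg W L a b S) * G (loops (cfg W L a b S)) := mul_nonneg w0.le g0
    by_cases hs : C' * ((JJ W L a b S).card : ℝ) < L
    · rw [if_pos hs]
      have a1 : wt W L n x (cfg W L a b S) * G (loops (cfg W L a b S)) /
          Real.sqrt (((JJ W L a b S).card : ℝ) + 1) ^ r ≤ wt W L n x (cfg W L a b S) := by
        refine (div_le_self hwg (one_le_pow₀ hsj)).trans ?_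
        nlinarith
      have a2 : 0 ≤ Real.sqrt C' ^ r * (wt W L n x (cfg W L a b S) *
          G (loops (cfg W L a b S)) / Real.sqrt L ^ r) := by positivity
      linarith
    · rw [if_neg hs, add_zero]
      push Not at hs
      have a1 : Real.sqrt L ≤ Real.sqrt C' * Real.sqrt (((JJ W L a b S).card : ℝ) + 1) := by
        rw [← Real.sqrt_mul hC'0.le]
        apply Real.sqrt_le_sqrt
        nlinarith
      have a2 : Real.sqrt L ^ r ≤ Real.sqrt C' ^ r *
          Real.sqrt (((JJ W L a b S).card : ℝ) + 1) ^ r := by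
        rw [← mul_pow]
        exact pow_le_pow_left₀ hsL.le a1 r
      have hp1 : 0 < Real.sqrt (((JJ W L a b S).card : ℝ) + 1) ^ r := by positivity
      have hp2 : 0 < Real.sqrt L ^ r := by positivity
      rw [← mul_div_assoc, div_le_div_iff₀ hp1 hp2]
      calc _ ≤ wt W L n x (cfg W L a b S) * G (loops (cfg W L a b S)) * (Real.sqrt C' ^ r *
            Real.sqrt (((JJ W L a b S).card : ℝ) + 1) ^ r) := mul_le_mul_of_nonneg_left a2 hwg
        _ = _ := by ring
  obtain ⟨X, hX⟩ : ∃ X, X = ∑ S ∈ (Dom W L).powerset, x ^ Y.len S * (F S /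
      Real.sqrt ((Sl Y (range (L / 3)) S).card + 1) ^ r) := ⟨_, rfl⟩
  rw [← hX] at e2 ⊢
  exact fin_aux hC hC' hL0 r hZ0 (div_nonneg hG0 (pow_nonneg hsL.le r)) (hm W L a b hp) e2

end

end Pool.Agent.N929.ON
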